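import Mathlib

/-!
# Polar decomposition, Aluthge transform, mean transform, mean-Aluthge transform
-/

namespace Pool.Agent.R884.AL

open scoped InnerProductSpace ComplexOrder

variable {H : Type*} [NormedAddCommGroup H] [InnerProductSpace ℂ H] [CompleteSpace H]

/-- `V` is the partial isometry of the canonical polar decomposition `T = V|T|`:
`V` is a partial isometry (`V V* V = V`), `ker V = ker T` and `V |T| = T`,
where `|T| = (T*T)^{1/2}` is `CFC.abs T`. -/
structure IsPolarPart (T V : H →L[ℂ] H) : Prop where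
  mul_abs : V * CFC.abs T = T
  partialIsometry : V * star V * V = V
  ker_eq : ∀ x, V x = 0 ↔ T x = 0

section basic

lemma inner_star_left (T : H →L[ℂ] H) (x y : H) : ⟪(star T) x, y⟫_ℂ = ⟪x, T y⟫_ℂ := by
  rw [ContinuousLinearMap.star_eq_adjoint, ContinuousLinearMap.adjoint_inner_left]

lemma inner_star_right (T : H →L[ℂ] H) (x y : H) : ⟪x, (star T) y⟫_ℂ = ⟪T x, y⟫_ℂ := by
  rw [ContinuousLinearMap.star_eq_adjoint, ContinuousLinearMap.adjoint_inner_right]

lemma inner_sa {T : H →L[ℂ] H} (hT : IsSelfAdjoint T) (x y : H) : ⟪T x, y⟫_ℂ = ⟪x, T y⟫_ℂ := by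
  rw [← inner_star_left, hT.star_eq]

lemma norm_abs_apply (T : H →L[ℂ] H) (x : H) : ‖CFC.abs T x‖ = ‖T x‖ := by
  have h1 : ⟪CFC.abs T x, CFC.abs T x⟫_ℂ = ⟪T x, T x⟫_ℂ := by
    rw [inner_sa (CFC.abs_nonneg T).isSelfAdjoint, ← ContinuousLinearMap.mul_apply,
      CFC.abs_mul_abs, ContinuousLinearMap.mul_apply, inner_star_right]
  rw [inner_self_eq_norm_sq_to_K, inner_self_eq_norm_sq_to_K] at h1
  have h2 : ‖CFC.abs T x‖ ^ 2 = ‖T x‖ ^ 2 := by exact_mod_cast h1
  exact (pow_left_inj₀ (norm_nonneg _) (norm_nonneg _) two_ne_zero).1 h2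

/-- Positivity in terms of quadratic forms. -/
lemma re_inner_nonneg {P : H →L[ℂ] H} (hP : 0 ≤ P) (x : H) : 0 ≤ (⟪P x, x⟫_ℂ).re := by
  rw [ContinuousLinearMap.nonneg_iff_isPositive] at hP
  exact hP.re_inner_nonneg_left x

lemma le_iff_re {P Q : H →L[ℂ] H} (hP : IsSelfAdjoint P) (hQ : IsSelfAdjoint Q) :
    P ≤ Q ↔ ∀ x, (⟪P x, x⟫_ℂ).re ≤ (⟪Q x, x⟫_ℂ).re := by
  rw [ContinuousLinearMap.le_def, ContinuousLinearMap.isPositive_def']
  constructor
  · rintro ⟨-, h⟩ x
    have := h x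
    rw [ContinuousLinearMap.reApplyInnerSelf_apply, ContinuousLinearMap.sub_apply,
      inner_sub_left] at this
    simpa using this
  · intro h
    refine ⟨hQ.sub hP, fun x => ?_⟩
    rw [ContinuousLinearMap.reApplyInnerSelf_apply, ContinuousLinearMap.sub_apply,
      inner_sub_left]
    simpa using h x

/-- Operator monotonicity of the square root, in the form we use. -/
lemma le_of_norm_le {P Q : H →L[ℂ] H} (hP : 0 ≤ P) (hQ : 0 ≤ Q) (h : ∀ x, ‖P x‖ ≤ ‖Q x‖) :
    P ≤ Q := by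
  have h1 : P * P ≤ Q * Q := by
    have hPP : IsSelfAdjoint (P * P) := by
      have := hP.isSelfAdjoint
      rw [IsSelfAdjoint, star_mul, this.star_eq]
    have hQQ : IsSelfAdjoint (Q * Q) := by
      have := hQ.isSelfAdjoint
      rw [IsSelfAdjoint, star_mul, this.star_eq]
    rw [le_iff_re hPP hQQ]
    intro x
    rw [ContinuousLinearMap.mul_apply, ContinuousLinearMap.mul_apply,
      inner_sa hP.isSelfAdjoint, inner_sa hQ.isSelfAdjoint,
      inner_self_eq_norm_sq_to_K, inner_self_eq_norm_sq_to_K]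
    have := h x
    have h3 : ‖P x‖ ^ 2 ≤ ‖Q x‖ ^ 2 := by gcongr
    exact_mod_cast h3
  have h2 := CFC.sqrt_le_sqrt _ _ h1
  rwa [CFC.sqrt_mul_self P hP, CFC.sqrt_mul_self Q hQ] at h2

lemma eq_of_re {P Q : H →L[ℂ] H} (hP : IsSelfAdjoint P) (hQ : IsSelfAdjoint Q)
    (h : ∀ x, (⟪P x, x⟫_ℂ).re = (⟪Q x, x⟫_ℂ).re) : P = Q :=
  le_antisymm ((le_iff_re hP hQ).2 fun x => (h x).le) ((le_iff_re hQ hP).2 fun x => (h x).ge)

/-- Existence of the polar decomposition. -/
theorem exists_polarPart (T : H →L[ℂ] H) : ∃ V, IsPolarPart T V := by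
  classical
  set A := CFC.abs T with hA
  set R : Submodule ℂ H := (LinearMap.range (A : H →ₗ[ℂ] H)).topologicalClosure with hR
  have hmem : ∀ x, A x ∈ R := fun x =>
    Submodule.le_topologicalClosure _ ⟨x, rfl⟩
  haveI : CompleteSpace R := (Submodule.isClosed_topologicalClosure _).completeSpace_coe
  let e : H →ₗ[ℂ] R := (A : H →ₗ[ℂ] H).codRestrict R hmem
  have he : ∀ x, ((e x : R) : H) = A x := fun x => rfl
  have hdense : DenseRange e := by
    rw [DenseRange, dense_iff_closure_eq, Set.eq_univ_iff_forall]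
    intro r
    have hr : (r : H) ∈ closure (LinearMap.range (A : H →ₗ[ℂ] H) : Set H) := r.2
    rw [closure_subtype]
    have h1 : (LinearMap.range (A : H →ₗ[ℂ] H) : Set H) ⊆
        ((fun r : R => (r : H)) '' Set.range e) := by
      rintro y ⟨x, rfl⟩
      exact ⟨e x, ⟨x, rfl⟩, rfl⟩
    exact closure_mono h1 hr
  have hn : ∀ x, ‖e x‖ = ‖T x‖ := fun x => by
    rw [← norm_abs_apply T x]; rfl
  set g : R →L[ℂ] H := (T : H →ₗ[ℂ] H).extendOfNorm e with hg
  have hge : ∀ x, g (e x) = T x := fun x =>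
    LinearMap.extendOfNorm_eq hdense ⟨1, fun x => by rw [one_mul, hn]; exact le_rfl⟩ x
  have hgn : ∀ r, ‖g r‖ = ‖r‖ := by
    intro r
    refine hdense.induction_on (p := fun r => ‖g r‖ = ‖r‖) r ?_ ?_
    · exact isClosed_eq (by fun_prop) (by fun_prop)
    · intro x
      rw [hge, hn]
  let gi : R →ₗᵢ[ℂ] H := ⟨g, hgn⟩
  have hginn : ∀ r s, ⟪g r, g s⟫_ℂ = ⟪r, s⟫_ℂ := fun r s => gi.inner_map_map r s
  let V : H →L[ℂ] H := g ∘L R.orthogonalProjectionOnto
  have hV : ∀ x, V x = g (R.orthogonalProjectionOnto x) := fun x => rfl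
  have hPA : ∀ x, R.orthogonalProjectionOnto (A x) = e x := fun x =>
    Submodule.orthogonalProjectionOnto_mem_subspace_eq_self (K := R) ⟨A x, hmem x⟩
  have hVs : star V * V = R.starProjection := by
    ext x
    refine ext_inner_right ℂ fun y => ?_
    rw [ContinuousLinearMap.mul_apply, inner_star_left, hV, hV, hginn]
    rw [Submodule.inner_orthogonalProjectionOnto_eq_of_mem_left]
    rfl
  refine ⟨V, ?_, ?_, ?_⟩
  · ext x
    rw [ContinuousLinearMap.mul_apply, hV]
    change g (R.orthogonalProjectionOnto (A x)) = T x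
    rw [hPA, hge]
  · rw [mul_assoc, hVs]
    ext x
    rw [ContinuousLinearMap.mul_apply, hV, hV]
    congr 1
    exact Submodule.orthogonalProjectionOnto_mem_subspace_eq_self (K := R)
      (R.orthogonalProjectionOnto x)
  · intro x
    have h1 : V x = 0 ↔ R.orthogonalProjectionOnto x = 0 := by
      rw [← norm_eq_zero, hV, hgn, norm_eq_zero]
    rw [h1, Submodule.orthogonalProjectionOnto_eq_zero_iff, hR, Submodule.orthogonal_closure,
      Submodule.mem_orthogonal]
    constructor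
    · intro h
      have h2 := h (A (A x)) ⟨A x, rfl⟩
      rw [inner_sa (CFC.abs_nonneg T).isSelfAdjoint] at h2
      have h3 : A x = 0 := inner_self_eq_zero.1 h2
      rw [← norm_eq_zero, ← norm_abs_apply, ← hA, h3, norm_zero]
    · rintro h _ ⟨y, rfl⟩
      have h3 : A x = 0 := by rw [← norm_eq_zero, norm_abs_apply, h, norm_zero]
      change ⟪A y, x⟫_ℂ = 0
      rw [inner_sa (CFC.abs_nonneg T).isSelfAdjoint, h3, inner_zero_right]

end basic

end Pool.Agent.R884.AL
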