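import Pool.Agent.R884.AL.Basic

/-!
# Fixed points of the mean-Aluthge transform
-/

namespace Pool.Agent.R884.AL

open scoped InnerProductSpace ComplexOrder

variable {H : Type*} [NormedAddCommGroup H] [InnerProductSpace ℂ H] [CompleteSpace H]

section polar

variable {T V : H →L[ℂ] H}

/-- the initial projection kills nothing outside the kernel -/
lemma proj_sa (V : H →L[ℂ] H) : IsSelfAdjoint (star V * V) := by
  rw [IsSelfAdjoint, star_mul, star_star]

/-- An operator whose kernel contains `ker V` is unchanged by the initial projection. -/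
lemma mul_proj (h : V * star V * V = V) {Z : H →L[ℂ] H} (hZ : ∀ x, V x = 0 → Z x = 0) :
    Z * (star V * V) = Z := by
  ext x
  have h1 : V (x - (star V * V) x) = 0 := by
    rw [map_sub, ← ContinuousLinearMap.mul_apply, ← mul_assoc, h, sub_self]
  have h2 := hZ _ h1
  rw [map_sub, sub_eq_zero] at h2
  exact h2.symm

lemma proj_mul (h : V * star V * V = V) {Z : H →L[ℂ] H} (hsa : IsSelfAdjoint Z)
    (hZ : ∀ x, V x = 0 → Z x = 0) : (star V * V) * Z = Z := by
  have h1 := congrArg star (mul_proj h hZ)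
  rw [star_mul, hsa.star_eq, (proj_sa V).star_eq] at h1
  exact h1

lemma norm_of_proj (h : V * star V * V = V) {x : H} (hx : (star V * V) x = x) :
    ‖V x‖ = ‖x‖ := by
  have h1 : ⟪V x, V x⟫_ℂ = ⟪x, x⟫_ℂ := by
    rw [← inner_star_right, ← ContinuousLinearMap.mul_apply, hx]
  rw [inner_self_eq_norm_sq_to_K, inner_self_eq_norm_sq_to_K] at h1
  have h2 : ‖V x‖ ^ 2 = ‖x‖ ^ 2 := by exact_mod_cast h1
  exact (pow_left_inj₀ (norm_nonneg _) (norm_nonneg _) two_ne_zero).1 h2

lemma abs_ker (T : H →L[ℂ] H) (x : H) : CFC.abs T x = 0 ↔ T x = 0 := by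
  rw [← norm_eq_zero, norm_abs_apply, norm_eq_zero]

/-- Uniqueness of the polar decomposition. -/
lemma IsPolarPart.unique {V' : H →L[ℂ] H} (h : IsPolarPart T V) (h' : IsPolarPart T V') :
    V = V' := by
  -- `(V - V')|T| = 0`, `V - V'` vanishes on `ker T`
  have hK : (V - V') * CFC.abs T = 0 := by
    rw [sub_mul, h.mul_abs, h'.mul_abs, sub_self]
  have h1 : CFC.abs T * star (V - V') = 0 := by
    have := congrArg star hK
    rwa [star_mul, star_zero, (CFC.abs_nonneg T).isSelfAdjoint.star_eq] at this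
  have h2 : star (V - V') = 0 := by
    ext y
    have h3 : CFC.abs T (star (V - V') y) = 0 := by
      rw [← ContinuousLinearMap.mul_apply, h1]; rfl
    have h4 : V (star (V - V') y) = 0 := (h.ker_eq _).2 ((abs_ker T _).1 h3)
    have h5 : V' (star (V - V') y) = 0 := (h'.ker_eq _).2 ((abs_ker T _).1 h3)
    have h6 : (V - V') (star (V - V') y) = 0 := by
      rw [ContinuousLinearMap.sub_apply, h4, h5, sub_zero]
    have h7 : ⟪star (V - V') y, star (V - V') y⟫_ℂ = 0 := by
      rw [inner_star_left, h6, inner_zero_right]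
    simpa using h7
  have h8 : V - V' = 0 := by
    rw [← star_star (V - V'), h2, star_zero]
  exact sub_eq_zero.1 h8

theorem existsUnique_polarPart (T : H →L[ℂ] H) : ∃! V, IsPolarPart T V := by
  obtain ⟨V, hV⟩ := exists_polarPart T
  exact ⟨V, hV, fun V' hV' => hV'.unique hV⟩

/-- If `K X = 0` with `X ≥ 0`, and `K` vanishes on `ker X`, then `K = 0`. -/
lemma eq_zero_of_mul {K X : H →L[ℂ] H} (hX : IsSelfAdjoint X) (h : K * X = 0)
    (hk : ∀ x, X x = 0 → K x = 0) : K = 0 := by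
  have h1 : X * star K = 0 := by
    have := congrArg star h
    rwa [star_mul, star_zero, hX.star_eq] at this
  have h2 : star K = 0 := by
    ext y
    have h3 : X (star K y) = 0 := by
      rw [← ContinuousLinearMap.mul_apply, h1]; rfl
    have h6 := hk _ h3
    have h7 : ⟪star K y, star K y⟫_ℂ = 0 := by
      rw [inner_star_left, h6, inner_zero_right]
    simpa using h7
  rw [← star_star K, h2, star_zero]

end polar

/-- The core: operators `A = X², B ≥ 0`, partial isometries `V, W`, with `T = V A`,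
`S = X V X = W B` and `2T = S + B W`.  Then `S = T`. -/
theorem core {T V S W A X B : H →L[ℂ] H} (hA : 0 ≤ A) (hX : 0 ≤ X) (hB : 0 ≤ B)
    (hXX : X * X = A) (hT : T = V * A) (hS : S = X * V * X) (hWB : S = W * B)
    (hV : V * star V * V = V) (hW : W * star W * W = W)
    (hTA : ∀ x, ‖T x‖ = ‖A x‖) (hSB : ∀ x, ‖S x‖ = ‖B x‖)
    (hVk : ∀ x, V x = 0 ↔ T x = 0) (hWk : ∀ x, W x = 0 ↔ S x = 0)
    (hfix : T + T = S + B * W) : S = T := by
  have hAsa := hA.isSelfAdjoint
  have hXsa := hX.isSelfAdjoint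
  have hBsa := hB.isSelfAdjoint
  -- kernels
  have hSn : ∀ x, S x = 0 → T x = 0 := by
    intro x hx
    have h1 := (hWk x).2 hx
    have h2 : T x + T x = S x + B (W x) := by
      have := congrArg (fun Z : H →L[ℂ] H => Z x) hfix
      simpa using this
    rw [hx, h1, map_zero, add_zero] at h2
    have h3 : (2 : ℂ) • T x = 0 := by rw [two_smul]; exact h2
    exact (smul_eq_zero.1 h3).resolve_left two_ne_zero
  have hXn : ∀ x, A x = 0 → X x = 0 := by
    intro x hx
    have h1 : ⟪X x, X x⟫_ℂ = 0 := by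
      rw [inner_sa hXsa, ← ContinuousLinearMap.mul_apply, hXX, hx, inner_zero_right]
    simpa using h1
  have hAn : ∀ x, V x = 0 → A x = 0 := by
    intro x hx
    rw [← norm_eq_zero, ← hTA, (hVk x).1 hx, norm_zero]
  have hBnV : ∀ x, W x = 0 → B x = 0 := by
    intro x hx
    rw [← norm_eq_zero, ← hSB, (hWk x).1 hx, norm_zero]
  have hVW : ∀ x, V x = 0 → W x = 0 := by
    intro x hx
    rw [hWk, hS]
    simp [hXn x (hAn x hx)]
  have hWV : ∀ x, W x = 0 → V x = 0 := by
    intro x hx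
    rw [hVk]
    exact hSn x ((hWk x).1 hx)
  -- projections
  have hEA : (star V * V) * A = A := proj_mul hV hAsa hAn
  have hEX : (star V * V) * X = X := proj_mul hV hXsa fun x hx => hXn x (hAn x hx)
  have hFA : (star W * W) * A = A := proj_mul hW hAsa fun x hx => hAn x (hWV x hx)
  have hFB : (star W * W) * B = B := proj_mul hW hBsa hBnV
  have hVX : ∀ x, ‖V (X x)‖ = ‖X x‖ := fun x => norm_of_proj hV (by
    rw [← ContinuousLinearMap.mul_apply, hEX])
  have hAX : A * X = X * A := by rw [← hXX, mul_assoc]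
  have hAx : ∀ x, X (X x) = A x := fun x => by rw [← ContinuousLinearMap.mul_apply, hXX]
  -- `‖W* y‖ ≤ ‖y‖`
  have hWs : ∀ y, ‖star W y‖ ≤ ‖y‖ := by
    intro y
    have h1 : ‖W (star W y)‖ = ‖star W y‖ := by
      refine norm_of_proj hW ?_
      have h2 : star W * W * star W = star W := by
        have := congrArg star hW
        rwa [star_mul, star_mul, star_star, ← mul_assoc] at this
      rw [← ContinuousLinearMap.mul_apply, h2]
    have h2 : ‖star W y‖ ^ 2 ≤ ‖star W y‖ * ‖y‖ := by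
      have h3 : ⟪star W y, star W y⟫_ℂ = ⟪y, W (star W y)⟫_ℂ := inner_star_left _ _ _
      rw [inner_self_eq_norm_sq_to_K] at h3
      have h4 : ‖star W y‖ ^ 2 = ‖⟪y, W (star W y)⟫_ℂ‖ := by
        rw [← h3]; simp
      rw [h4]
      calc ‖⟪y, W (star W y)⟫_ℂ‖ ≤ ‖y‖ * ‖W (star W y)‖ := norm_inner_le_norm _ _
        _ = ‖star W y‖ * ‖y‖ := by rw [h1, mul_comm]
    by_contra hlt
    rw [not_le] at hlt
    have h5 : 0 < ‖star W y‖ := lt_of_le_of_lt (norm_nonneg _) hlt
    nlinarith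
  -- the operator `C = W* T`
  set C : H →L[ℂ] H := star W * T with hC
  have h2C : C + C = B + star W * B * W := by
    rw [hC, ← mul_add, hfix, hWB, mul_add, ← mul_assoc, hFB, mul_assoc]
  have hWBWsa : IsSelfAdjoint (star W * B * W) := by
    rw [IsSelfAdjoint, star_mul, star_mul, star_star, hBsa.star_eq, mul_assoc]
  have hCsa : IsSelfAdjoint C := by
    have h1 : star (C + C) = C + C := by
      rw [h2C, star_add, hBsa.star_eq, hWBWsa.star_eq]
    rw [star_add] at h1
    have h2 : (2 : ℂ) • star C = (2 : ℂ) • C := by rw [two_smul, two_smul]; exact h1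
    exact (smul_right_injective _ (two_ne_zero : (2 : ℂ) ≠ 0)) h2
  have hCre : ∀ x, 2 * (⟪C x, x⟫_ℂ).re = (⟪B x, x⟫_ℂ).re + (⟪B (W x), W x⟫_ℂ).re := by
    intro x
    have h1 : ⟪(C + C) x, x⟫_ℂ = ⟪(B + star W * B * W) x, x⟫_ℂ := by rw [h2C]
    have h2 : (star W * B * W) x = star W (B (W x)) := rfl
    rw [ContinuousLinearMap.add_apply, ContinuousLinearMap.add_apply, inner_add_left,
      inner_add_left, h2, inner_star_left] at h1
    have h3 := congrArg Complex.re h1
    rw [Complex.add_re, Complex.add_re] at h3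
    linarith
  have hC0 : 0 ≤ C := by
    rw [le_iff_re (IsSelfAdjoint.zero _) hCsa]
    intro x
    have h1 := hCre x
    have h2 := re_inner_nonneg hB x
    have h3 := re_inner_nonneg hB (W x)
    simp only [ContinuousLinearMap.zero_apply, inner_zero_left, Complex.zero_re]
    linarith
  have hCA : C ≤ A := by
    refine le_of_norm_le hC0 hA fun x => ?_
    rw [← hTA]
    exact hWs _
  have hCAre : ∀ x, (⟪C x, x⟫_ℂ).re ≤ ‖X x‖ ^ 2 := by
    intro x
    refine ((le_iff_re hCsa hAsa).1 hCA x).trans ?_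
    rw [← hXX, ContinuousLinearMap.mul_apply, inner_sa hXsa, inner_self_eq_norm_sq_to_K]
    apply le_of_eq
    norm_cast
  -- Cauchy-Schwarz
  have hCS : ∀ y, (⟪B y, y⟫_ℂ).re ≤ ‖X y‖ * ‖X (W y)‖ := by
    intro y
    have h1 : ⟪B y, y⟫_ℂ = ⟪V (X y), X (W y)⟫_ℂ := by
      have h2 : B y = star W (X (V (X y))) := by
        have h3 : B = star W * (X * V * X) := by
          rw [← hS, hWB, ← mul_assoc, hFB]
        conv_lhs => rw [h3]
        rfl
      rw [h2, inner_star_left, inner_sa hXsa]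
    rw [h1]
    calc (⟪V (X y), X (W y)⟫_ℂ).re ≤ ‖⟪V (X y), X (W y)⟫_ℂ‖ := Complex.re_le_norm _
      _ ≤ ‖V (X y)‖ * ‖X (W y)‖ := norm_inner_le_norm _ _
      _ = ‖X y‖ * ‖X (W y)‖ := by rw [hVX]
  -- Step (2)
  have step2 : ∀ δ : ℝ, 0 ≤ δ → δ ≤ 1 → (∀ y, (1 - δ) * ‖X y‖ ^ 2 ≤ (⟪B y, y⟫_ℂ).re) →
      ∀ y, (⟪B y, y⟫_ℂ).re ≤ (1 + δ) * ‖X y‖ ^ 2 := by
    intro δ hδ0 hδ1 h y
    have h1 := hCS y
    have h2 := hCre y
    have h3 := hCAre y
    have h4 := h (W y)
    set a := (⟪B y, y⟫_ℂ).re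
    set b := ‖X y‖
    set c := ‖X (W y)‖
    have hb : 0 ≤ b := norm_nonneg _
    have hc : 0 ≤ c := norm_nonneg _
    by_contra hlt
    rw [not_le] at hlt
    rcases hb.eq_or_lt with hb0 | hb0
    · rw [← hb0] at h1 hlt
      nlinarith
    · have h5 : (1 + δ) * b < c := by
        have : (1 + δ) * b ^ 2 < b * c := hlt.trans_le h1
        nlinarith
      have h6 : a + (1 - δ) * c ^ 2 ≤ 2 * b ^ 2 := by linarith
      have h7 : (1 - δ) * ((1 + δ) * b) ^ 2 ≤ (1 - δ) * c ^ 2 := by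
        have h8 : ((1 + δ) * b) ^ 2 ≤ c ^ 2 := by
          apply pow_le_pow_left₀ (by positivity) h5.le
        exact mul_le_mul_of_nonneg_left h8 (by linarith)
      have h9 : (1 + δ) * b ^ 2 + (1 - δ) * ((1 + δ) * b) ^ 2 < 2 * b ^ 2 := by linarith
      have h10 : (1 + δ) * b ^ 2 + (1 - δ) * ((1 + δ) * b) ^ 2 - 2 * b ^ 2
          = δ * (1 - δ) * (2 + δ) * b ^ 2 := by ring
      have h11 : 0 ≤ δ * (1 - δ) * (2 + δ) * b ^ 2 := by
        have : 0 ≤ 1 - δ := by linarith
        positivity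
      linarith
  -- Step (1)
  have step1 : ∀ δ : ℝ, 0 ≤ δ → δ ≤ 1 → (∀ y, (1 - δ) * ‖X y‖ ^ 2 ≤ (⟪B y, y⟫_ℂ).re) →
      (∀ y, (⟪B y, y⟫_ℂ).re ≤ (1 + δ) * ‖X y‖ ^ 2) →
      ∀ y, (1 - δ / 2) * ‖X y‖ ^ 2 ≤ (⟪B y, y⟫_ℂ).re := by
    intro δ hδ0 hδ1 hlo hhi
    have hnorm : ∀ x, (1 - δ / 2) * ‖A x‖ ≤ ‖B x‖ := by
      intro x
      set a := ‖B x‖ with ha
      set b := ‖A x‖ with hb
      have ha0 : 0 ≤ a := norm_nonneg _
      have hb0 : 0 ≤ b := norm_nonneg _
      rcases hb0.eq_or_lt with hb1 | hb1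
      · rw [← hb1]; simpa using ha0
      rcases ha0.eq_or_lt with ha1 | ha1
      · exfalso
        have h1 : S x = 0 := by rw [← norm_eq_zero, hSB, ← ha, ← ha1]
        have h2 := hSn x h1
        rw [hb, ← hTA, h2, norm_zero] at hb1
        exact lt_irrefl _ hb1
      -- the vector
      have hT1 : (⟪B (V (X x)), V (X x)⟫_ℂ).re ≤ (1 + δ) * a ^ 2 := by
        refine (hhi _).trans ?_
        have : ‖X (V (X x))‖ = a := by
          rw [ha, ← hSB, hS]; rfl
        rw [this]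
      have hBWX : ∀ z, B (W z) = T z + T z - S z := by
        intro z
        have := congrArg (fun Z : H →L[ℂ] H => Z z) hfix
        simp only [ContinuousLinearMap.add_apply] at this
        rw [this]
        simp
      have hTX : ⟪T (X x), V (X x)⟫_ℂ = ((b ^ 2 : ℝ) : ℂ) := by
        have h1 : T (X x) = V (X (A x)) := by
          rw [hT, ContinuousLinearMap.mul_apply, ← ContinuousLinearMap.mul_apply A X, hAX]
          rfl
        rw [h1, ← inner_star_right, ← ContinuousLinearMap.mul_apply (star V) V]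
        have h2 : (star V * V) (X x) = X x := by
          rw [← ContinuousLinearMap.mul_apply, hEX]
        rw [h2, inner_sa hXsa, hAx, inner_self_eq_norm_sq_to_K]
        norm_cast
      have hSX : ‖⟪S (X x), V (X x)⟫_ℂ‖ ≤ a * b := by
        have h1 : S (X x) = X (T x) := by
          rw [hS, hT]
          change X (V (X (X x))) = X (V (A x))
          rw [hAx]
        rw [h1, inner_sa hXsa]
        have h2 : X (V (X x)) = S x := by rw [hS]; rfl
        rw [h2]
        calc ‖⟪T x, S x⟫_ℂ‖ ≤ ‖T x‖ * ‖S x‖ := norm_inner_le_norm _ _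
          _ = a * b := by rw [hTA, hSB, mul_comm]
      have hT2 : 2 * b ^ 2 - a * b ≤ (⟪B (W (X x)), V (X x)⟫_ℂ).re := by
        rw [hBWX, inner_sub_left, inner_add_left, hTX, Complex.sub_re, Complex.add_re,
          Complex.ofReal_re]
        have := (Complex.re_le_norm (⟪S (X x), V (X x)⟫_ℂ)).trans hSX
        linarith
      have hT3 : (⟪B (W (X x)), W (X x)⟫_ℂ).re ≤ (1 + δ) * b ^ 2 := by
        have h1 := hCre (X x)
        have h2 := hCAre (X x)
        have h3 := hlo (X x)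
        have h4 : ‖X (X x)‖ = b := by rw [hAx]
        rw [h4] at h2 h3
        linarith
      have hpos := re_inner_nonneg hB ((b : ℂ) • V (X x) - (a : ℂ) • W (X x))
      have hexp : (⟪B ((b : ℂ) • V (X x) - (a : ℂ) • W (X x)),
          (b : ℂ) • V (X x) - (a : ℂ) • W (X x)⟫_ℂ).re
          = b ^ 2 * (⟪B (V (X x)), V (X x)⟫_ℂ).re
            - 2 * (a * b) * (⟪B (W (X x)), V (X x)⟫_ℂ).re
            + a ^ 2 * (⟪B (W (X x)), W (X x)⟫_ℂ).re := by
        have hsym : (⟪B (V (X x)), W (X x)⟫_ℂ).re = (⟪B (W (X x)), V (X x)⟫_ℂ).re := by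
          rw [inner_sa hBsa, ← inner_conj_symm, Complex.conj_re]
        simp only [map_sub, map_smul, inner_sub_left, inner_sub_right, inner_smul_left,
          inner_smul_right, Complex.conj_ofReal, Complex.sub_re, Complex.re_ofReal_mul]
        rw [hsym]
        ring
      rw [hexp] at hpos
      have h1 : b ^ 2 * (⟪B (V (X x)), V (X x)⟫_ℂ).re ≤ b ^ 2 * ((1 + δ) * a ^ 2) :=
        mul_le_mul_of_nonneg_left hT1 (by positivity)
      have h2 : 2 * (a * b) * (2 * b ^ 2 - a * b)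
          ≤ 2 * (a * b) * (⟪B (W (X x)), V (X x)⟫_ℂ).re :=
        mul_le_mul_of_nonneg_left hT2 (by positivity)
      have h3 : a ^ 2 * (⟪B (W (X x)), W (X x)⟫_ℂ).re ≤ a ^ 2 * ((1 + δ) * b ^ 2) :=
        mul_le_mul_of_nonneg_left hT3 (by positivity)
      have h4 : 0 ≤ 2 * a * b ^ 2 * ((2 + δ) * a - 2 * b) := by nlinarith
      have h5 : 0 ≤ (2 + δ) * a - 2 * b := by
        by_contra hneg
        rw [not_le] at hneg
        have : 2 * a * b ^ 2 * ((2 + δ) * a - 2 * b) < 0 :=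
          mul_neg_of_pos_of_neg (by positivity) hneg
        linarith
      have h6 : 0 ≤ (1 - δ / 2) * ((2 + δ) * a - 2 * b) := mul_nonneg (by linarith) h5
      have h7 : 0 ≤ δ ^ 2 * a := by positivity
      nlinarith
    -- operator monotonicity of the square root
    have h0 : 0 ≤ 1 - δ / 2 := by linarith
    have hsc : 0 ≤ ((1 - δ / 2 : ℝ)) • A := smul_nonneg h0 hA
    have hle : ((1 - δ / 2 : ℝ)) • A ≤ B := by
      refine le_of_norm_le hsc hB fun x => ?_
      rw [ContinuousLinearMap.smul_apply, norm_smul, Real.norm_of_nonneg h0]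
      exact hnorm x
    intro y
    have h1 := (le_iff_re hsc.isSelfAdjoint hBsa).1 hle y
    refine le_trans (le_of_eq ?_) h1
    rw [ContinuousLinearMap.smul_apply, ← hXX, ContinuousLinearMap.mul_apply]
    rw [show ((1 - δ / 2 : ℝ)) • X (X y) = (((1 - δ / 2 : ℝ)) : ℂ) • X (X y) from
      (Complex.coe_smul _ _).symm, inner_smul_left, Complex.conj_ofReal, Complex.re_ofReal_mul,
      inner_sa hXsa, inner_self_eq_norm_sq_to_K]
    norm_cast
  -- induction
  have hind : ∀ n : ℕ, (∀ y, (1 - (1 / 2 : ℝ) ^ n) * ‖X y‖ ^ 2 ≤ (⟪B y, y⟫_ℂ).re) ∧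
      (∀ y, (⟪B y, y⟫_ℂ).re ≤ (1 + (1 / 2 : ℝ) ^ n) * ‖X y‖ ^ 2) := by
    intro n
    induction n with
    | zero =>
      have h0 : ∀ y, (1 - (1 / 2 : ℝ) ^ 0) * ‖X y‖ ^ 2 ≤ (⟪B y, y⟫_ℂ).re := by
        intro y
        simpa using re_inner_nonneg hB y
      exact ⟨h0, step2 _ (by norm_num) (by norm_num) h0⟩
    | succ n ih =>
      have hp : (0 : ℝ) ≤ (1 / 2 : ℝ) ^ n := by positivity
      have hp1 : (1 / 2 : ℝ) ^ n ≤ 1 := pow_le_one₀ (by norm_num) (by norm_num)
      have h1 := step1 _ hp hp1 ih.1 ih.2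
      have h2 : (1 / 2 : ℝ) ^ n / 2 = (1 / 2 : ℝ) ^ (n + 1) := by rw [pow_succ]; ring
      rw [h2] at h1
      exact ⟨h1, step2 _ (by positivity) (pow_le_one₀ (by norm_num) (by norm_num)) h1⟩
  have hlim : ∀ y, (⟪B y, y⟫_ℂ).re = ‖X y‖ ^ 2 := by
    intro y
    have ht : Filter.Tendsto (fun n : ℕ => (1 / 2 : ℝ) ^ n) Filter.atTop (nhds 0) :=
      tendsto_pow_atTop_nhds_zero_of_lt_one (by norm_num) (by norm_num)
    have hl : Filter.Tendsto (fun n : ℕ => (1 - (1 / 2 : ℝ) ^ n) * ‖X y‖ ^ 2) Filter.atTop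
        (nhds (‖X y‖ ^ 2)) := by
      have := (ht.const_sub 1).mul_const (‖X y‖ ^ 2)
      simpa using this
    have hr : Filter.Tendsto (fun n : ℕ => (1 + (1 / 2 : ℝ) ^ n) * ‖X y‖ ^ 2) Filter.atTop
        (nhds (‖X y‖ ^ 2)) := by
      have := (ht.const_add 1).mul_const (‖X y‖ ^ 2)
      simpa using this
    exact le_antisymm (ge_of_tendsto' hr fun n => (hind n).2 y)
      (le_of_tendsto' hl fun n => (hind n).1 y)
  have hAre : ∀ y, (⟪A y, y⟫_ℂ).re = ‖X y‖ ^ 2 := by
    intro y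
    rw [← hXX, ContinuousLinearMap.mul_apply, inner_sa hXsa, inner_self_eq_norm_sq_to_K]
    norm_cast
  have hBA : B = A := eq_of_re hBsa hAsa fun y => by rw [hlim, hAre]
  -- `C = A`
  have hCA' : C = A := by
    refine eq_of_re hCsa hAsa fun y => ?_
    refine le_antisymm ((le_iff_re hCsa hAsa).1 hCA y) ?_
    have h1 := hCre y
    have h2 := hCS y
    rw [hlim y, hlim (W y)] at h1
    rw [hlim y] at h2
    rw [hAre]
    have hb : 0 ≤ ‖X y‖ := norm_nonneg _
    have hc : 0 ≤ ‖X (W y)‖ := norm_nonneg _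
    have h3 : ‖X y‖ ^ 2 ≤ ‖X (W y)‖ ^ 2 := by
      rcases hb.eq_or_lt with hb0 | hb0
      · rw [← hb0]; simp
      · have : ‖X y‖ ≤ ‖X (W y)‖ := by nlinarith
        gcongr
    linarith
  -- `T = W A`
  have hTW : ∀ x, T x = W (A x) := by
    intro x
    have h1 : ‖W (A x)‖ = ‖A x‖ := norm_of_proj hW (by
      rw [← ContinuousLinearMap.mul_apply, hFA])
    have h2 : (⟪T x, W (A x)⟫_ℂ).re = ‖A x‖ ^ 2 := by
      rw [← inner_star_left]
      have h3 : star W (T x) = A x := by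
        have : C x = A x := by rw [hCA']
        exact this
      rw [h3, inner_self_eq_norm_sq_to_K]
      norm_cast
    have h3 : ‖T x - W (A x)‖ ^ 2 = 0 := by
      have := @norm_sub_sq ℂ H _ _ _ (T x) (W (A x))
      rw [this, hTA, h1]
      change ‖A x‖ ^ 2 - 2 * (⟪T x, W (A x)⟫_ℂ).re + ‖A x‖ ^ 2 = 0
      rw [h2]; ring
    have h4 : ‖T x - W (A x)‖ = 0 := by
      simpa using h3
    exact sub_eq_zero.1 (norm_eq_zero.1 h4)
  rw [hWB, hBA]
  ext x
  rw [ContinuousLinearMap.mul_apply, hTW]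

end Pool.Agent.R884.AL
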